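import Pool.Agent.X90.MZ.Fam

/-!
# Relations between numbers with a transcendence measure and multiple zeta values
-/

set_option autoImplicit false

namespace Pool.Agent.X90.MZ

open Finset Pool.Agent.TH507.WG
open Pool.Agent.Y760.PZ
open Pool.Agent.TH507.WD (mz)

/-- **numbers with a transcendence measure and multiple zeta values at affine patterns** -/
theorem fam_meas {y : ℝ} (hy : Pool.Agent.TH456.TM.MeasT (y : ℂ)) {l : ℕ} (β : Fin l → ℝ) (hβ : ∀ j, IsAlgebraic ℚ (β j))
    (hli : LinearIndependent ℚ β) (k D : ℕ) (w : Fin k → Wd) (hw : ∀ i, HP (w i) ∧ OK (w i)) :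
    ∃ B C : ℝ, 1 < B ∧ 1 < C ∧ ∃ n0 : ℕ, ∀ n : ℕ, n0 ≤ n →
      ∀ P : Fin l → MvPolynomial (Option (Fin k)) ℤ, (∀ j, (P j).totalDegree ≤ D) →
      (∀ j m, |(((P j).coeff m : ℤ) : ℝ)| ≤ C ^ n) →
      |∑ j, β j * MvPolynomial.aeval (fun o : Option (Fin k) => o.elim y
        fun i => mz (ar n (w i))) (P j)| ≤ (B ^ n)⁻¹ →
      ∀ j, (∀ x : ℝ, MvPolynomial.aeval (fun o : Option (Fin k) => o.elim x
          fun i => mz (ar n (w i))) (P j) = 0) ∧
        ∀ (A : Type) [CommRing A] (x : A) (Z : List ℕ → A),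
          (∀ u v, Ad u → Ad v → Z u * Z v = ((sti u v).map Z).sum) →
          MvPolynomial.aeval (fun o : Option (Fin k) => o.elim x
            fun i => ex Z (ar n (w i))) (P j) = 0 := by
  classical
  obtain ⟨B, C, hB, hC, n0, h⟩ := poly_lm _ (LM_alg β hβ hli hy D) k D w hw
  obtain ⟨L, hL⟩ : ∃ L : ℕ, ∀ m ∈ Om k D, ((lst w m).map List.length).sum ≤ L :=
    ⟨∑ m ∈ Om k D, ((lst w m).map List.length).sum, fun m hm =>
      single_le_sum (f := fun m : Fin k →₀ ℕ => ((lst w m).map List.length).sum)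
        (fun _ _ => Nat.zero_le _) hm⟩
  refine ⟨B, C, hB, hC, n0 + L + 2, fun n hn P hPd hPC hsmall => ?_⟩
  have hval : ∑ j, β j * MvPolynomial.aeval (fun o : Option (Fin k) => o.elim y
        fun i => mz (ar n (w i))) (P j) =
      ∑ p : Fin l × Fin (D + 1), (β p.1 * y ^ (p.2 : ℕ)) *
        MvPolynomial.aeval (fun i => mz (ar n (w i))) (cf0 (P p.1) p.2) := by
    rw [Fintype.sum_prod_type]
    refine sum_congr rfl fun j _ => ?_
    rw [aeval_opt (hPd j), mul_sum]
    refine sum_congr rfl fun i _ => ?_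
    simp only [Option.elim_none, Option.elim_some]
    ring
  rw [hval] at hsmall
  have h1 := h n (by omega) (fun p => cf0 (P p.1) p.2) (fun p => cf0_degree (hPd p.1) _)
    (fun p m => by
      rw [coeff_cf0]
      exact hPC _ _) hsmall
  have key : ∀ {A : Type} [CommRing A] (F : Wd → A),
      (∀ m ∈ Om k D, ((lst w m).map F).prod = ((stl (lst w m)).map F).sum) →
      ∀ (x : A) j, MvPolynomial.aeval (fun o : Option (Fin k) => o.elim x fun i => F (w i)) (P j) = 0 := by
    intro A _ F hF x j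
    rw [aeval_opt (hPd j)]
    refine sum_eq_zero fun i _ => ?_
    simp only [Option.elim_some]
    rw [aeval_eq w D (cf0 (P j) i) (fun m hm i' => ?_) F hF, sum_eq_zero, mul_zero]
    · intro v hv
      rw [h1 (j, i) v hv, Int.cast_zero, zero_mul]
    · have h2 := (MvPolynomial.le_totalDegree hm).trans (cf0_degree (hPd j) i)
      by_cases hi : i' ∈ m.support
      · have h3 : m i' ≤ m.sum fun _ e => e :=
          Finset.single_le_sum (f := fun i => m i) (fun _ _ => Nat.zero_le _) hi
        exact h3.trans h2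
      · rw [Finsupp.notMem_support_iff.1 hi]
        exact Nat.zero_le _
  have hlst : ∀ m : Fin k →₀ ℕ, ∀ u ∈ lst w m, HP u ∧ OK u := by
    intro m u hu
    obtain ⟨i, rfl⟩ := mem_lst hu
    exact hw i
  intro j
  refine ⟨fun x => key (fun v => mz (ar n v)) (fun m hm => mz_prod (lst w m) (hlst m) ?_) x j, ?_⟩
  · have := hL m hm
    omega
  · intro A _ x Z hZ
    exact key (fun v => ex Z (ar n v)) (fun m _ => prod_ex hZ (by omega) (lst w m) (hlst m)) x j

end Pool.Agent.X90.MZ
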