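import Pool.Agent.X90.MZ.Fam
import Pool.Agent.Helper90.ZP.Three

/-!
# Multiple zeta values with coefficients in the span of fixed numbers
-/

set_option autoImplicit false

namespace Pool.Agent.X90.MZ

open Finset Pool.Agent.Y760.PZ Pool.Agent.TH507.WG Pool.Agent.TH507.WD

/-- **polynomials in multiple zeta values, coefficients in the span of `θ`** -/
theorem fam_theta {ι : Type} [Fintype ι] (θ : ι → ℝ) (hθ : LM θ) (k D : ℕ) (w : Fin k → Wd)
    (hw : ∀ i, HP (w i) ∧ OK (w i)) :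
    ∃ B C : ℝ, 1 < B ∧ 1 < C ∧ ∃ n0 : ℕ, ∀ n : ℕ, n0 ≤ n →
      ∀ P : ι → MvPolynomial (Fin k) ℤ, (∀ j, (P j).totalDegree ≤ D) →
      (∀ j m, |(((P j).coeff m : ℤ) : ℝ)| ≤ C ^ n) →
      |∑ j, θ j * MvPolynomial.aeval (fun i => mz (ar n (w i))) (P j)| ≤ (B ^ n)⁻¹ →
      ∀ j, MvPolynomial.aeval (fun i => mz (ar n (w i))) (P j) = 0 ∧
        ∀ (A : Type) [CommRing A] (Z : List ℕ → A),
          (∀ u v, Ad u → Ad v → Z u * Z v = ((sti u v).map Z).sum) →
          MvPolynomial.aeval (fun i => ex Z (ar n (w i))) (P j) = 0 := by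
  classical
  obtain ⟨B, C, hB, hC, n0, h⟩ := poly_lm θ hθ k D w hw
  obtain ⟨L, hL⟩ : ∃ L : ℕ, ∀ m ∈ Om k D, ((lst w m).map List.length).sum ≤ L :=
    ⟨∑ m ∈ Om k D, ((lst w m).map List.length).sum, fun m hm =>
      single_le_sum (f := fun m : Fin k →₀ ℕ => ((lst w m).map List.length).sum)
        (fun _ _ => Nat.zero_le _) hm⟩
  refine ⟨B, C, hB, hC, n0 + L + 2, fun n hn P hPd hPC hsmall => ?_⟩
  have h1 := h n (by omega) P hPd hPC hsmall
  have key : ∀ {A : Type} [CommRing A] (F : Wd → A),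
      (∀ m ∈ Om k D, ((lst w m).map F).prod = ((stl (lst w m)).map F).sum) →
      ∀ j, MvPolynomial.aeval (fun i => F (w i)) (P j) = 0 := by
    intro A _ F hF j
    rw [aeval_eq w D (P j) (fun m hm i' => ?_) F hF, sum_eq_zero]
    · intro v hv
      rw [h1 j v hv, Int.cast_zero, zero_mul]
    · have h2 := (MvPolynomial.le_totalDegree hm).trans (hPd j)
      by_cases hi : i' ∈ m.support
      · have h3 : m i' ≤ m.sum fun _ e => e :=
          Finset.single_le_sum (f := fun i => m i) (fun _ _ => Nat.zero_le _) hi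
        exact h3.trans h2
      · rw [Finsupp.notMem_support_iff.1 hi]
        exact Nat.zero_le _
  have hlst : ∀ m : Fin k →₀ ℕ, ∀ u ∈ lst w m, HP u ∧ OK u := by
    intro m u hu
    obtain ⟨i, rfl⟩ := mem_lst hu
    exact hw i
  intro j
  refine ⟨key (fun v => mz (ar n v)) (fun m hm => mz_prod (lst w m) (hlst m) ?_) j, ?_⟩
  · have := hL m hm
    omega
  · intro A _ Z hZ
    exact key (fun v => ex Z (ar n v)) (fun m _ => prod_ex hZ (by omega) (lst w m) (hlst m)) j

end Pool.Agent.X90.MZ
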