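import Pool.Agent.Y760.PZ.Vec

/-!
# A measure of linear independence for the numbers `β_j x ^ i`, `β_j` algebraic, `x` with a transcendence measure
-/

set_option autoImplicit false

namespace Pool.Agent.X90.MZ

open Finset Polynomial Pool.Agent.Y760.PZ Pool.Agent.TH456.TM

/-- the sum of the absolute values of the coefficients -/
noncomputable def N1 (P : ℤ[X]) : ℝ := ∑ i ∈ P.support, |(P.coeff i : ℝ)|

lemma N1_range {P : ℤ[X]} {n : ℕ} (h : P.natDegree < n) :
    N1 P = ∑ i ∈ range n, |(P.coeff i : ℝ)| := by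
  rw [N1]
  refine sum_subset (fun i hi => ?_) fun i _ hi => ?_
  · rw [mem_range]
    exact (Polynomial.le_natDegree_of_mem_supp i hi).trans_lt h
  · rw [Polynomial.notMem_support_iff.1 hi]
    simp

lemma N1_nonneg (P : ℤ[X]) : 0 ≤ N1 P := sum_nonneg fun i _ => abs_nonneg _

lemma coeff_le_N1 (P : ℤ[X]) (i : ℕ) : |(P.coeff i : ℝ)| ≤ N1 P := by
  by_cases hi : i ∈ P.support
  · exact single_le_sum (f := fun i => |(P.coeff i : ℝ)|) (fun _ _ => abs_nonneg _) hi
  · rw [Polynomial.notMem_support_iff.1 hi]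
    simpa using N1_nonneg P

lemma N1_zero : N1 0 = 0 := by simp [N1]

lemma N1_one : N1 1 = 1 := by
  rw [N1_range (n := 1) (by simp)]
  simp

lemma N1_neg (P : ℤ[X]) : N1 (-P) = N1 P := by
  rw [N1, N1, Polynomial.support_neg]
  exact sum_congr rfl fun i _ => by simp

lemma N1_add (P Q : ℤ[X]) : N1 (P + Q) ≤ N1 P + N1 Q := by
  set n := max P.natDegree Q.natDegree + 1 with hn
  rw [N1_range (P := P + Q) (n := n) (by
      have := Polynomial.natDegree_add_le P Q
      omega), N1_range (P := P) (n := n) (by omega), N1_range (P := Q) (n := n) (by omega),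
    ← sum_add_distrib]
  refine sum_le_sum fun i _ => ?_
  rw [Polynomial.coeff_add]
  push_cast
  exact abs_add_le _ _

lemma N1_sum {κ : Type*} (s : Finset κ) (f : κ → ℤ[X]) : N1 (∑ i ∈ s, f i) ≤ ∑ i ∈ s, N1 (f i) := by
  classical
  induction s using Finset.induction_on with
  | empty => simp [N1_zero]
  | insert a s ha ih =>
    rw [sum_insert ha, sum_insert ha]
    exact (N1_add _ _).trans (by linarith)

/-- the polynomial of the absolute values -/
noncomputable def hat (P : ℤ[X]) : ℝ[X] := ∑ i ∈ range (P.natDegree + 1), C |(P.coeff i : ℝ)| * X ^ i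

lemma hat_coeff (P : ℤ[X]) (k : ℕ) : (hat P).coeff k = |(P.coeff k : ℝ)| := by
  rw [hat]
  simp only [Polynomial.finsetSum_coeff, Polynomial.coeff_C_mul, Polynomial.coeff_X_pow]
  by_cases h : k ∈ range (P.natDegree + 1)
  · rw [sum_eq_single k]
    · simp
    · intro b _ hb
      rw [if_neg (Ne.symm hb), mul_zero]
    · exact fun h2 => absurd h h2
  · rw [mem_range, not_lt] at h
    rw [Polynomial.coeff_eq_zero_of_natDegree_lt (by omega : P.natDegree < k)]
    rw [sum_eq_zero]
    · simp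
    · intro i hi
      rw [mem_range] at hi
      rw [if_neg (by omega), mul_zero]

lemma hat_eval (P : ℤ[X]) : (hat P).eval 1 = N1 P := by
  rw [N1_range (Nat.lt_succ_self _), hat, Polynomial.eval_finsetSum]
  exact sum_congr rfl fun i _ => by simp

lemma N1_mul (P Q : ℤ[X]) : N1 (P * Q) ≤ N1 P * N1 Q := by
  set n := max (P * Q).natDegree (hat P * hat Q).natDegree + 1 with hn
  rw [N1_range (P := P * Q) (n := n) (by omega), ← hat_eval P, ← hat_eval Q, ← Polynomial.eval_mul,
    Polynomial.eval_eq_sum_range' (n := n) (by omega)]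
  refine sum_le_sum fun k _ => ?_
  rw [Polynomial.coeff_mul, Polynomial.coeff_mul, one_pow, mul_one]
  push_cast
  refine (abs_sum_le_sum_abs _ _).trans (sum_le_sum fun x _ => ?_)
  rw [abs_mul, hat_coeff, hat_coeff]

lemma N1_prod {κ : Type*} (s : Finset κ) (f : κ → ℤ[X]) : N1 (∏ i ∈ s, f i) ≤ ∏ i ∈ s, N1 (f i) := by
  classical
  induction s using Finset.induction_on with
  | empty => simp [N1_one]
  | insert a s ha ih =>
    rw [prod_insert ha, prod_insert ha]
    exact (N1_mul _ _).trans (mul_le_mul_of_nonneg_left ih (N1_nonneg _))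

lemma N1_det {f : ℕ} (M : Matrix (Fin f) (Fin f) ℤ[X]) {h : ℝ} (hM : ∀ r c, N1 (M r c) ≤ h) :
    N1 M.det ≤ f.factorial * h ^ f := by
  rw [Matrix.det_apply]
  refine (N1_sum _ _).trans ?_
  have h1 : ∀ σ ∈ (univ : Finset (Equiv.Perm (Fin f))),
      N1 (Equiv.Perm.sign σ • ∏ i, M (σ i) i) ≤ h ^ f := by
    intro σ _
    have h2 : N1 (Equiv.Perm.sign σ • ∏ i, M (σ i) i) = N1 (∏ i, M (σ i) i) := by
      rcases Int.units_eq_one_or (Equiv.Perm.sign σ) with h | h <;> rw [h]
      · rw [one_smul]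
      · rw [Units.neg_smul, one_smul, N1_neg]
    rw [h2]
    refine (N1_prod _ _).trans ?_
    calc ∏ i, N1 (M (σ i) i) ≤ ∏ _i : Fin f, h :=
          prod_le_prod (fun i _ => N1_nonneg _) fun i _ => hM _ _
      _ = h ^ f := by rw [prod_const, card_univ, Fintype.card_fin]
  refine (sum_le_sum h1).trans (le_of_eq ?_)
  rw [sum_const, card_univ, Fintype.card_perm, Fintype.card_fin, nsmul_eq_mul]

lemma natDegree_det {f D : ℕ} (M : Matrix (Fin f) (Fin f) ℤ[X]) (hM : ∀ r c, (M r c).natDegree ≤ D) :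
    M.det.natDegree ≤ f * D := by
  rw [Matrix.det_apply]
  refine Polynomial.natDegree_sum_le_of_forall_le _ _ fun σ _ => ?_
  have h2 : (Equiv.Perm.sign σ • ∏ i, M (σ i) i).natDegree = (∏ i, M (σ i) i).natDegree := by
    rcases Int.units_eq_one_or (Equiv.Perm.sign σ) with h | h <;> rw [h]
    · rw [one_smul]
    · rw [Units.neg_smul, one_smul, Polynomial.natDegree_neg]
  rw [h2]
  refine (Polynomial.natDegree_prod_le _ _).trans ?_
  calc ∑ i, (M (σ i) i).natDegree ≤ ∑ _i : Fin f, D := sum_le_sum fun i _ => hM _ _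
    _ = f * D := by simp

end Pool.Agent.X90.MZ
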