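import Pool.Agent.X90.MZ.Alg

/-!
# A measure of linear independence for the numbers `β_j x ^ i`, second part
-/

set_option autoImplicit false

namespace Pool.Agent.X90.MZ

open Finset Polynomial Pool.Agent.Y760.PZ Pool.Agent.TH456.TM

/-- a common denominator -/
lemma common_den {κ : Type} [Fintype κ] (a : κ → ℚ) : ∃ Δ : ℕ, Δ ≠ 0 ∧ ∀ k, ∃ z : ℤ, (Δ : ℚ) * a k = z := by
  classical
  refine ⟨∏ k, (a k).den, prod_ne_zero_iff.2 fun k _ => (a k).den_ne_zero, fun k => ?_⟩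
  refine ⟨(∏ i ∈ univ.erase k, ((a i).den : ℤ)) * (a k).num, ?_⟩
  rw [← prod_erase_mul univ _ (mem_univ k)]
  push_cast
  rw [mul_assoc, Rat.den_mul_eq_num]

/-- the polynomial matrix -/
noncomputable def Mp {l D f : ℕ} (N : Fin l → Matrix (Fin f) (Fin f) ℤ) (q : Fin l × Fin (D + 1) → ℤ) :
    Matrix (Fin f) (Fin f) ℤ[X] :=
  fun r c => ∑ p : Fin l × Fin (D + 1), C (q p * N p.1 r c) * X ^ (p.2 : ℕ)

lemma Mp_natDegree {l D f : ℕ} (N : Fin l → Matrix (Fin f) (Fin f) ℤ) (q : Fin l × Fin (D + 1) → ℤ)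
    (r c : Fin f) : (Mp N q r c).natDegree ≤ D := by
  refine Polynomial.natDegree_sum_le_of_forall_le _ _ fun p _ => ?_
  refine (Polynomial.natDegree_C_mul_X_pow_le _ _).trans ?_
  have := p.2.2
  omega

lemma N1_C_mul_X (a : ℤ) (k : ℕ) : N1 (C a * X ^ k) ≤ |(a : ℝ)| := by
  rw [N1_range (n := k + 1) ((Polynomial.natDegree_C_mul_X_pow_le _ _).trans_lt (Nat.lt_succ_self _)),
    sum_eq_single k]
  · simp
  · intro i _ hi
    rw [Polynomial.coeff_C_mul_X_pow, if_neg hi]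
    simp
  · intro h
    exact absurd (mem_range.2 (Nat.lt_succ_self _)) h

lemma Mp_N1 {l D f : ℕ} (N : Fin l → Matrix (Fin f) (Fin f) ℤ) : ∃ S : ℝ, 1 ≤ S ∧
    ∀ (q : Fin l × Fin (D + 1) → ℤ) (H : ℝ), 0 ≤ H → (∀ p, |(q p : ℝ)| ≤ H) → ∀ r c,
      N1 (Mp N q r c) ≤ S * H := by
  refine ⟨1 + ∑ p : Fin l × Fin (D + 1), ∑ r, ∑ c, |(N p.1 r c : ℝ)|,
    le_add_of_nonneg_right (by positivity), fun q H hH hq r c => ?_⟩
  have h1 : N1 (Mp N q r c) ≤ ∑ p : Fin l × Fin (D + 1), (∑ r, ∑ c, |(N p.1 r c : ℝ)|) * H := by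
    refine (N1_sum _ _).trans (sum_le_sum fun p _ => ?_)
    refine (N1_C_mul_X _ _).trans ?_
    push_cast
    rw [abs_mul, mul_comm]
    refine mul_le_mul ?_ (hq p) (abs_nonneg _) (by positivity)
    refine le_trans ?_ (single_le_sum (f := fun r => ∑ c, |(N p.1 r c : ℝ)|)
      (fun _ _ => sum_nonneg fun _ _ => abs_nonneg _) (mem_univ r))
    exact single_le_sum (f := fun c => |(N p.1 r c : ℝ)|) (fun _ _ => abs_nonneg _) (mem_univ c)
  rw [← sum_mul] at h1
  linarith [h1, hH, add_mul 1 (∑ p : Fin l × Fin (D + 1), ∑ r, ∑ c, |(N p.1 r c : ℝ)|) H]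

lemma Mp_aeval {l D f : ℕ} (N : Fin l → Matrix (Fin f) (Fin f) ℤ) (q : Fin l × Fin (D + 1) → ℤ)
    (x : ℝ) (r c : Fin f) : aeval x (Mp N q r c) =
      ∑ p : Fin l × Fin (D + 1), (q p : ℝ) * (N p.1 r c : ℝ) * x ^ (p.2 : ℕ) := by
  rw [Mp, map_sum]
  refine sum_congr rfl fun p _ => ?_
  rw [map_mul, map_pow, aeval_X, aeval_C]
  simp

lemma abs_aeval_le {P : ℤ[X]} {D : ℕ} (hP : P.natDegree ≤ D) (x : ℝ) :
    |aeval x P| ≤ N1 P * (1 + |x|) ^ D := by
  rw [aeval_eq_sum_range' (Nat.lt_succ_of_le hP), N1_range (Nat.lt_succ_of_le hP), sum_mul]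
  refine (abs_sum_le_sum_abs _ _).trans (sum_le_sum fun i hi => ?_)
  rw [mem_range] at hi
  rw [zsmul_eq_mul, abs_mul, abs_pow]
  refine mul_le_mul_of_nonneg_left ?_ (abs_nonneg _)
  have h1 : 0 ≤ |x| := abs_nonneg x
  calc |x| ^ i ≤ (1 + |x|) ^ i := pow_le_pow_left₀ h1 (by linarith) _
    _ ≤ (1 + |x|) ^ D := pow_le_pow_right₀ (by linarith) (by omega)

/-- the determinant and an eigenvector -/
lemma det_eigen {f : ℕ} (M : Matrix (Fin f) (Fin f) ℝ) (v : Fin f → ℝ) (y m : ℝ) (hm : 1 ≤ m)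
    (hM : ∀ r c, |M r c| ≤ m) (h : ∀ c, ∑ r, v r * M r c = y * v c) (c : Fin f) :
    |M.det| * |v c| ≤ |y| * ((∑ r, |v r|) * (f.factorial * m ^ f)) := by
  classical
  have h1 : Matrix.vecMul v M = y • v := by
    funext c
    simpa [Matrix.vecMul, dotProduct] using h c
  have h2 : Matrix.vecMul v (M * M.adjugate) = y • Matrix.vecMul v M.adjugate := by
    rw [← Matrix.vecMul_vecMul, h1, Matrix.smul_vecMul]
  rw [Matrix.mul_adjugate, Matrix.vecMul_smul, Matrix.vecMul_one] at h2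
  have h3 := congrFun h2 c
  simp only [Pi.smul_apply, smul_eq_mul] at h3
  have h4 : ∀ r, |M.adjugate r c| ≤ f.factorial * m ^ f := by
    intro r
    rw [Matrix.adjugate_apply]
    have h5 := Matrix.det_le (A := M.updateRow c (Pi.single r 1)) (abv := AbsoluteValue.abs) (x := m)
      (fun i j => by
        show |M.updateRow c (Pi.single r 1) i j| ≤ m
        rw [Matrix.updateRow_apply]
        split_ifs with hi
        · by_cases hj : j = r
          · subst hj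
            simpa using hm
          · rw [Pi.single_eq_of_ne hj, abs_zero]
            linarith
        · exact hM i j)
    rw [Fintype.card_fin, nsmul_eq_mul] at h5
    exact h5
  rw [← abs_mul, h3, abs_mul]
  refine mul_le_mul_of_nonneg_left ?_ (abs_nonneg _)
  show |∑ r, v r * M.adjugate r c| ≤ _
  refine (abs_sum_le_sum_abs _ _).trans ?_
  rw [sum_mul]
  refine sum_le_sum fun r _ => ?_
  rw [abs_mul]
  exact mul_le_mul_of_nonneg_left (h4 r) (abs_nonneg _)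

end Pool.Agent.X90.MZ
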