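import Pool.Agent.X90.MZ.Alg2

/-!
# A measure of linear independence for the numbers `β_j x ^ i`, conclusion
-/

set_option autoImplicit false

namespace Pool.Agent.X90.MZ

open Finset Polynomial Pool.Agent.Y760.PZ Pool.Agent.TH456.TM

section field

variable {F : Type} [Field F] [Algebra ℚ F] [FiniteDimensional ℚ F]

/-- the determinant polynomial does not vanish -/
lemma det_ne {l D f : ℕ} (b : Module.Basis (Fin f) ℚ F) (γ : Fin l → F) (hγ : LinearIndependent ℚ γ)
    (Δ : ℕ) (hΔ : Δ ≠ 0) (N : Fin l → Matrix (Fin f) (Fin f) ℤ)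
    (hN : ∀ j r c, (N j r c : ℚ) = Δ * Algebra.leftMulMatrix b (γ j) r c)
    (q : Fin l × Fin (D + 1) → ℤ) (hq : q ≠ 0) : (Mp N q).det ≠ 0 := by
  classical
  intro h0
  have : CharZero F := algebraRat.charZero F
  set R : F[X] := ∑ p : Fin l × Fin (D + 1), C ((q p : F) * γ p.1) * X ^ (p.2 : ℕ) with hR
  have hev : ∀ t : ℕ, R.eval (t : F) = 0 := by
    intro t
    have h1 : R.eval (t : F) = ∑ p : Fin l × Fin (D + 1), ((q p : ℚ) * (t : ℚ) ^ (p.2 : ℕ)) • γ p.1 := by
      rw [hR, Polynomial.eval_finsetSum]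
      refine sum_congr rfl fun p _ => ?_
      rw [Polynomial.eval_mul, Polynomial.eval_C, Polynomial.eval_pow, Polynomial.eval_X,
        Algebra.smul_def, map_mul, map_pow, map_natCast, map_intCast]
      ring
    have h2 : ((Mp N q).map (Polynomial.evalRingHom (t : ℤ))).map (Int.castRingHom ℚ) =
        (Δ : ℚ) • Algebra.leftMulMatrix b (R.eval (t : F)) := by
      ext r c
      rw [h1, map_sum, Matrix.map_apply, Matrix.map_apply, Matrix.smul_apply, Matrix.sum_apply]
      rw [Mp, map_sum, map_sum, smul_sum]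
      refine sum_congr rfl fun p _ => ?_
      rw [map_smul, Matrix.smul_apply]
      have hC : ∀ z : ℤ, Polynomial.evalRingHom (t : ℤ) (C z) = z := fun z => by
        rw [Polynomial.coe_evalRingHom, Polynomial.eval_C]
      have hX : Polynomial.evalRingHom (t : ℤ) X = (t : ℤ) := by
        rw [Polynomial.coe_evalRingHom, Polynomial.eval_X]
      rw [map_mul, map_pow, hC, hX, map_mul, map_pow, map_mul, eq_intCast, eq_intCast, eq_intCast,
        Int.cast_natCast, hN, smul_eq_mul, smul_eq_mul]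
      ring
    have h3 : ((Δ : ℚ) • Algebra.leftMulMatrix b (R.eval (t : F))).det = 0 := by
      rw [← h2]
      have h4 : ((Mp N q).map (Polynomial.evalRingHom (t : ℤ))).det = 0 := by
        have h5 := (RingHom.map_det (Polynomial.evalRingHom (t : ℤ)) (Mp N q)).symm
        rw [h0, map_zero] at h5
        exact h5
      have h6 := (RingHom.map_det (Int.castRingHom ℚ)
        ((Mp N q).map (Polynomial.evalRingHom (t : ℤ)))).symm
      rw [h4, map_zero] at h6
      exact h6
    rw [Matrix.det_smul, mul_eq_zero] at h3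
    have h7 : (Algebra.leftMulMatrix b (R.eval (t : F))).det = 0 :=
      h3.resolve_left (pow_ne_zero _ (by exact_mod_cast hΔ))
    rw [← Algebra.norm_eq_matrix_det] at h7
    exact Algebra.norm_eq_zero_iff.1 h7
  have hR0 : R = 0 := by
    refine Polynomial.eq_zero_of_infinite_isRoot R ?_
    refine Set.Infinite.mono (s := Set.range fun t : ℕ => (t : F)) ?_
      (Set.infinite_range_of_injective Nat.cast_injective)
    rintro _ ⟨t, rfl⟩
    exact hev t
  apply hq
  funext p0
  have h1 : R.coeff (p0.2 : ℕ) = ∑ j, (q (j, p0.2) : ℚ) • γ j := by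
    rw [hR, Polynomial.finsetSum_coeff, Fintype.sum_prod_type]
    refine sum_congr rfl fun j _ => ?_
    rw [sum_eq_single p0.2]
    · rw [Polynomial.coeff_C_mul_X_pow, if_pos rfl, Algebra.smul_def, map_intCast]
    · intro i _ hi
      rw [Polynomial.coeff_C_mul_X_pow, if_neg]
      exact fun h => hi (Fin.ext h.symm)
    · exact fun h => absurd (mem_univ _) h
  rw [hR0, Polynomial.coeff_zero] at h1
  have h2 := (Fintype.linearIndependent_iff.1 hγ) (fun j => (q (j, p0.2) : ℚ)) h1.symm p0.1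
  exact_mod_cast h2

end field

/-- **a measure of linear independence for `β_j x ^ i`** -/
theorem LM_alg {l : ℕ} (β : Fin l → ℝ) (hβ : ∀ j, IsAlgebraic ℚ (β j))
    (hli : LinearIndependent ℚ β) {x : ℝ} (hx : MeasT (x : ℂ)) (D : ℕ) :
    LM fun p : Fin l × Fin (D + 1) => β p.1 * x ^ (p.2 : ℕ) := by
  classical
  set F := IntermediateField.adjoin ℚ (Set.range β) with hF
  have : FiniteDimensional ℚ F := IntermediateField.finiteDimensional_adjoin (fun y hy => by
    obtain ⟨j, rfl⟩ := hy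
    exact (hβ j).isIntegral)
  set f := Module.finrank ℚ F with hf
  have hf0 : 0 < f := Module.finrank_pos
  set b : Module.Basis (Fin f) ℚ F := Module.finBasis ℚ F with hb
  set γ : Fin l → F := fun j => ⟨β j, IntermediateField.subset_adjoin ℚ _ ⟨j, rfl⟩⟩ with hγdef
  have hγ : LinearIndependent ℚ γ :=
    LinearIndependent.of_comp (F.val.toLinearMap) (by
      have : (F.val.toLinearMap ∘ γ) = β := rfl
      rw [this]
      exact hli)
  obtain ⟨Δ, hΔ0, hΔ⟩ := common_den (fun k : Fin l × Fin f × Fin f =>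
    Algebra.leftMulMatrix b (γ k.1) k.2.1 k.2.2)
  choose N0 hN0 using hΔ
  set N : Fin l → Matrix (Fin f) (Fin f) ℤ := fun j r c => N0 (j, r, c) with hNdef
  have hN : ∀ j r c, (N j r c : ℚ) = Δ * Algebra.leftMulMatrix b (γ j) r c := fun j r c =>
    (hN0 (j, r, c)).symm
  obtain ⟨S, hS1, hS⟩ := Mp_N1 (D := D) N
  obtain ⟨κ, c0, hκ, hc0, hmeas⟩ := hx (f * D)
  set v : Fin f → ℝ := fun r => ((b r : F) : ℝ) with hv
  -- eigenvector
  have heig : ∀ j c, ∑ r, v r * (N j r c : ℝ) = Δ * β j * v c := by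
    intro j c
    have h1 : γ j * b c = ∑ r, (Algebra.leftMulMatrix b (γ j) r c) • b r := by
      simp only [Algebra.leftMulMatrix_eq_repr_mul]
      exact (b.sum_repr _).symm
    have h2 := congrArg (fun z : F => (z : ℝ)) h1
    simp only [IntermediateField.coe_mul, IntermediateField.coe_sum] at h2
    have h3 : ∀ r, ((((Algebra.leftMulMatrix b (γ j) r c) • b r : F)) : ℝ) =
        ((Algebra.leftMulMatrix b (γ j) r c : ℚ) : ℝ) * v r := by
      intro r
      rw [IntermediateField.coe_smul, Rat.smul_def]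
    simp only [h3] at h2
    have h4 : ∀ r, (N j r c : ℝ) = Δ * ((Algebra.leftMulMatrix b (γ j) r c : ℚ) : ℝ) := by
      intro r
      have := hN j r c
      exact_mod_cast congrArg (fun z : ℚ => (z : ℝ)) this
    simp only [h4]
    have h5 : ∑ r, v r * (Δ * ((Algebra.leftMulMatrix b (γ j) r c : ℚ) : ℝ)) =
        Δ * ∑ r, ((Algebra.leftMulMatrix b (γ j) r c : ℚ) : ℝ) * v r := by
      rw [mul_sum]
      exact sum_congr rfl fun r _ => by ring
    rw [h5, ← h2]
    show (Δ : ℝ) * (β j * v c) = _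
    ring
  set c1 : Fin f := ⟨0, hf0⟩ with hc1
  have hvc : v c1 ≠ 0 := by
    have h1 := b.ne_zero c1
    intro h2
    exact h1 (by
      apply Subtype.ext
      exact h2)
  have hvc' : 0 < |v c1| := abs_pos.2 hvc
  set V : ℝ := ∑ r, |v r| with hV
  have hV0 : 0 < V := lt_of_lt_of_le hvc' (single_le_sum (f := fun r => |v r|)
    (fun _ _ => abs_nonneg _) (mem_univ c1))
  set W : ℝ := (1 + |x|) ^ D with hW
  have hW1 : 1 ≤ W := one_le_pow₀ (by linarith [abs_nonneg x])
  have hΔR : (0 : ℝ) < Δ := by exact_mod_cast Nat.pos_of_ne_zero hΔ0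
  set E : ℝ := f.factorial * S ^ f with hE
  have hE1 : 1 ≤ E := one_le_mul_of_one_le_of_one_le (by exact_mod_cast Nat.succ_le_of_lt f.factorial_pos)
    (one_le_pow₀ hS1)
  set E2 : ℝ := Δ * (V * (f.factorial * (S * W) ^ f)) with hE2
  have hE20 : 0 < E2 := by positivity
  refine ⟨f * κ + f, c0 * |v c1| / (E ^ κ * E2), by positivity, by positivity,
    fun q hq H hH hqH => ?_⟩
  have hH0 : 0 < H := by linarith
  set y : ℝ := ∑ p : Fin l × Fin (D + 1), (q p : ℝ) * (β p.1 * x ^ (p.2 : ℕ)) with hy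
  set Q : ℤ[X] := (Mp N q).det with hQ
  have hQ0 : Q ≠ 0 := det_ne b γ hγ Δ hΔ0 N hN q hq
  have hQd : Q.natDegree ≤ f * D := natDegree_det _ (Mp_natDegree N q)
  have hent : ∀ r c, N1 (Mp N q r c) ≤ S * H := hS q H hH0.le hqH
  have hQN : N1 Q ≤ E * H ^ f := by
    refine (N1_det _ hent).trans (le_of_eq ?_)
    rw [hE, mul_pow]
    ring
  have hlow := hmeas Q hQ0 hQd (E * H ^ f) (one_le_mul_of_one_le_of_one_le hE1 (one_le_pow₀ hH))
    (fun j => (coeff_le_N1 Q j).trans hQN)
  have hQx : ‖aeval (x : ℂ) Q‖ = |aeval x Q| := by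
    have h1 : aeval (x : ℂ) Q = ((aeval x Q : ℝ) : ℂ) := by
      have := Polynomial.aeval_algebraMap_apply ℂ x Q
      simpa using this
    rw [h1, Complex.norm_real, Real.norm_eq_abs]
  rw [hQx] at hlow
  -- the real matrix
  have hdet : aeval x Q = ((Mp N q).map (aeval x : ℤ[X] →ₐ[ℤ] ℝ)).det := by
    rw [hQ]
    exact AlgHom.map_det _ _
  have hub := det_eigen ((Mp N q).map (aeval x : ℤ[X] →ₐ[ℤ] ℝ)) v (Δ * y) (S * H * W)
    (one_le_mul_of_one_le_of_one_le (one_le_mul_of_one_le_of_one_le hS1 hH) hW1)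
    (fun r c => by
      rw [Matrix.map_apply]
      refine (abs_aeval_le (Mp_natDegree N q r c) x).trans ?_
      exact mul_le_mul_of_nonneg_right (hent r c) (by positivity))
    (fun c => by
      simp only [Matrix.map_apply]
      have h1 : ∀ r, v r * aeval x (Mp N q r c) =
          ∑ p : Fin l × Fin (D + 1), (q p : ℝ) * x ^ (p.2 : ℕ) * (v r * (N p.1 r c : ℝ)) := by
        intro r
        rw [Mp_aeval, mul_sum]
        exact sum_congr rfl fun p _ => by ring
      have h2 : ∑ r, v r * aeval x (Mp N q r c) =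
          ∑ p : Fin l × Fin (D + 1), (q p : ℝ) * x ^ (p.2 : ℕ) * (Δ * β p.1 * v c) := by
        rw [sum_congr rfl fun r _ => h1 r, sum_comm]
        refine sum_congr rfl fun p _ => ?_
        rw [← mul_sum, heig]
      rw [h2, hy, mul_sum, sum_mul]
      exact sum_congr rfl fun p _ => by ring) c1
  rw [← hdet] at hub
  rw [abs_mul, abs_of_pos hΔR] at hub
  -- conclusion
  have hpow : (E * H ^ f) ^ κ = E ^ κ * H ^ (f * κ) := by
    rw [Real.mul_rpow (by linarith) (by positivity), ← Real.rpow_natCast H f, ← Real.rpow_mul hH0.le]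
  rw [hpow] at hlow
  have hHf : H ^ (f * κ + f) = H ^ (f * κ) * H ^ f := by
    rw [Real.rpow_add hH0, Real.rpow_natCast]
  rw [div_le_iff₀ (by positivity), hHf]
  have hEκ : 0 < E ^ κ := Real.rpow_pos_of_pos (by linarith) _
  have hHκ : 0 < H ^ (f * κ : ℝ) := Real.rpow_pos_of_pos hH0 _
  have h3 : |aeval x Q| * |v c1| ≤ E2 * H ^ f * |y| := by
    refine hub.trans (le_of_eq ?_)
    rw [hE2, hV, show S * H * W = S * W * H by ring, mul_pow (S * W) H]
    ring
  calc c0 * |v c1| ≤ E ^ κ * H ^ (f * κ : ℝ) * |aeval x Q| * |v c1| :=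
        mul_le_mul_of_nonneg_right hlow (abs_nonneg _)
    _ = E ^ κ * H ^ (f * κ : ℝ) * (|aeval x Q| * |v c1|) := by ring
    _ ≤ E ^ κ * H ^ (f * κ : ℝ) * (E2 * H ^ f * |y|) :=
        mul_le_mul_of_nonneg_left h3 (by positivity)
    _ = H ^ (f * κ : ℝ) * H ^ f * |y| * (E ^ κ * E2) := by ring

end Pool.Agent.X90.MZ
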