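import Pool.Agent.X90.MZ.Poly
import Pool.Agent.X90.MZ.Alg3

/-!
# Relations between `π` and multiple zeta values hold in all families with the stuffle product
-/

set_option autoImplicit false

namespace Pool.Agent.X90.MZ

open Finset Pool.Agent.TH507.WG
open Pool.Agent.Y760.PZ
open Pool.Agent.TH507.WD (mz)

/-- the stuffle product of two indices -/
def sti : List ℕ → List ℕ → List (List ℕ)
  | [], l => [l]
  | i :: k, [] => [i :: k]
  | i :: k, j :: l => (sti k (j :: l)).map (i :: ·) ++ (sti (i :: k) l).map (j :: ·) ++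
      (sti k l).map ((i + j) :: ·)
termination_by k l => k.length + l.length

/-- admissible indices -/
def Ad : List ℕ → Prop
  | [] => False
  | s :: l => 2 ≤ s ∧ ∀ t ∈ l, 1 ≤ t

lemma ar_st (n : ℕ) (u v : Wd) : (st u v).map (ar n) = sti (ar n u) (ar n v) := by
  induction u, v using st.induct with
  | case1 v => rw [st, ar_nil, sti]; rfl
  | case2 x u => rw [st, ar_nil, ar_cons, sti, List.map_singleton, ar_cons]
  | case3 x u y v ih1 ih2 ih3 =>
    rw [st, List.map_append, List.map_append, ar_cons, ar_cons, sti]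
    rw [ar_cons] at ih1 ih2
    rw [← ih1, ← ih2, ← ih3]
    simp only [List.map_map]
    congr 1
    refine List.map_congr_left fun w _ => ?_
    simp only [Function.comp_apply, ar_cons, Prod.fst_add, Prod.snd_add]
    congr 1
    ring

variable {A : Type} [CommRing A]

/-- the extension to the empty index -/
noncomputable def ex (Z : List ℕ → A) (u : List ℕ) : A := by
  classical
  exact if u = [] then 1 else Z u

lemma ex_nil (Z : List ℕ → A) : ex Z [] = 1 := by
  unfold ex
  rw [if_pos rfl]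

lemma ex_ne (Z : List ℕ → A) {u : List ℕ} (hu : u ≠ []) : ex Z u = Z u := by
  unfold ex
  rw [if_neg hu]

lemma sti_ne {u v : List ℕ} (hu : u ≠ []) : ∀ w ∈ sti u v, w ≠ [] := by
  intro w hw
  cases u with
  | nil => exact absurd rfl hu
  | cons i k =>
    cases v with
    | nil =>
      rw [sti, List.mem_singleton] at hw
      rw [hw]
      simp
    | cons j l =>
      rw [sti, List.mem_append, List.mem_append, List.mem_map, List.mem_map, List.mem_map] at hw
      rcases hw with (⟨w', _, rfl⟩ | ⟨w', _, rfl⟩) | ⟨w', _, rfl⟩ <;> simp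

lemma ex_mul {Z : List ℕ → A}
    (hZ : ∀ u v, Ad u → Ad v → Z u * Z v = ((sti u v).map Z).sum) {u v : List ℕ}
    (hu : u ≠ [] → Ad u) (hv : v ≠ [] → Ad v) :
    ex Z u * ex Z v = ((sti u v).map (ex Z)).sum := by
  by_cases hun : u = []
  · rw [hun, ex_nil, one_mul, sti]
    simp
  · by_cases hvn : v = []
    · rw [hvn, ex_nil, mul_one]
      cases u with
      | nil => exact absurd rfl hun
      | cons x u =>
        rw [sti]
        simp
    · rw [ex_ne Z hun, ex_ne Z hvn, hZ u v (hu hun) (hv hvn)]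
      congr 1
      exact List.map_congr_left fun t ht => (ex_ne Z (sti_ne hun t ht)).symm

lemma ar_Ad {n : ℕ} (hn : 2 ≤ n) {w : Wd} (h : HP w) (h' : OK w) (hw : ar n w ≠ []) :
    Ad (ar n w) := by
  cases w with
  | nil => exact absurd rfl hw
  | cons x l =>
    rw [ar_cons]
    have hx : 1 ≤ x.1 := h
    refine ⟨?_, fun t ht => ?_⟩
    · calc 2 ≤ n := hn
        _ = 1 * n := (one_mul n).symm
        _ ≤ x.1 * n := Nat.mul_le_mul_right n hx
        _ ≤ x.1 * n + x.2 := Nat.le_add_right _ _
    · rw [ar, List.mem_map] at ht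
      obtain ⟨y, hy, rfl⟩ := ht
      by_cases hy0 : y.1 = 0
      · have := h' y (List.mem_cons_of_mem _ hy) hy0
        omega
      · have : 1 ≤ y.1 * n := Nat.mul_pos (Nat.pos_of_ne_zero hy0) (by omega)
        omega

lemma prod_ex {Z : List ℕ → A}
    (hZ : ∀ u v, Ad u → Ad v → Z u * Z v = ((sti u v).map Z).sum) {n : ℕ} (hn : 2 ≤ n)
    (M : List Wd) (hM : ∀ u ∈ M, HP u ∧ OK u) :
    (M.map fun u => ex Z (ar n u)).prod = ((stl M).map fun u => ex Z (ar n u)).sum := by
  induction M with
  | nil =>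
    rw [stl]
    simp [ex_nil, ar_nil]
  | cons u M ih =>
    have hM' : ∀ u ∈ M, HP u ∧ OK u := fun u hu => hM u (List.mem_cons_of_mem _ hu)
    have hu := hM u List.mem_cons_self
    rw [List.map_cons, List.prod_cons, ih hM', stl]
    have h3 : ∀ v ∈ stl M, HP v ∧ OK v := fun v hv =>
      ⟨(stl_ok M hM' v hv).1, (stl_ok M hM' v hv).2.1⟩
    clear ih
    revert h3
    generalize stl M = T
    intro h3
    induction T with
    | nil => simp
    | cons v T ih2 =>
      have h5 := h3 v List.mem_cons_self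
      rw [List.map_cons, List.sum_cons, mul_add, List.flatMap_cons, List.map_append,
        List.sum_append, ih2 fun v' hv' => h3 v' (List.mem_cons_of_mem _ hv')]
      congr 1
      rw [ex_mul hZ (fun h => ar_Ad hn hu.1 hu.2 h) (fun h => ar_Ad hn h5.1 h5.2 h), ← ar_st,
        List.map_map]
      rfl

/-- the coefficient of `X_none ^ i` -/
noncomputable def cf0 {k : ℕ} (P : MvPolynomial (Option (Fin k)) ℤ) (i : ℕ) : MvPolynomial (Fin k) ℤ :=
  (MvPolynomial.optionEquivLeft ℤ (Fin k) P).coeff i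

lemma coeff_cf0 {k : ℕ} (P : MvPolynomial (Option (Fin k)) ℤ) (i : ℕ) (m : Fin k →₀ ℕ) :
    (cf0 P i).coeff m = P.coeff (m.optionElim i) := by
  have h := MvPolynomial.optionEquivLeft_coeff_some_coeff_none ℤ (Fin k) (m.optionElim i) P
  rwa [Finsupp.some_optionElim, Finsupp.optionElim_apply_none] at h

lemma cf0_degree {k D : ℕ} {P : MvPolynomial (Option (Fin k)) ℤ} (hP : P.totalDegree ≤ D) (i : ℕ) :
    (cf0 P i).totalDegree ≤ D := by
  refine Finset.sup_le fun m hm => ?_
  have h1 : m.optionElim i ∈ P.support := by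
    rw [MvPolynomial.mem_support_iff, ← coeff_cf0]
    exact MvPolynomial.mem_support_iff.1 hm
  have h2 := (MvPolynomial.le_totalDegree h1).trans hP
  have h3 : ((m.optionElim i).sum fun _ e => e) = i + m.sum fun _ e => e := by
    rw [Finsupp.sum_fintype _ _ (fun _ => rfl), Fintype.sum_option, Finsupp.sum_fintype _ _ (fun _ => rfl)]
    simp
  omega

lemma aeval_opt0 {k : ℕ} (P : MvPolynomial (Option (Fin k)) ℤ) (x : Option (Fin k) → A) :
    MvPolynomial.aeval x P = Polynomial.eval₂
      ((MvPolynomial.aeval (R := ℤ) fun i => x (some i)) : MvPolynomial (Fin k) ℤ →ₐ[ℤ] A).toRingHom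
      (x none) (MvPolynomial.optionEquivLeft ℤ (Fin k) P) := by
  induction P using MvPolynomial.induction_on with
  | C a =>
    rw [MvPolynomial.optionEquivLeft_C, Polynomial.eval₂_C, MvPolynomial.aeval_C]
    show _ = MvPolynomial.aeval _ (MvPolynomial.C a)
    rw [MvPolynomial.aeval_C]
  | add p q hp hq => rw [map_add, map_add, Polynomial.eval₂_add, hp, hq]
  | mul_X p j hp =>
    rw [map_mul, map_mul, Polynomial.eval₂_mul, hp, MvPolynomial.aeval_X]
    congr 1
    cases j with
    | none => rw [MvPolynomial.optionEquivLeft_X_none, Polynomial.eval₂_X]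
    | some i =>
      rw [MvPolynomial.optionEquivLeft_X_some, Polynomial.eval₂_C]
      show _ = MvPolynomial.aeval _ (MvPolynomial.X i)
      rw [MvPolynomial.aeval_X]

lemma natDegree_opt {k D : ℕ} {P : MvPolynomial (Option (Fin k)) ℤ} (hP : P.totalDegree ≤ D) :
    (MvPolynomial.optionEquivLeft ℤ (Fin k) P).natDegree ≤ D := by
  rw [Polynomial.natDegree_le_iff_coeff_eq_zero]
  intro i hi
  show cf0 P i = 0
  ext m
  rw [coeff_cf0, MvPolynomial.coeff_zero]
  by_contra hne
  have h2 := (MvPolynomial.le_totalDegree (MvPolynomial.mem_support_iff.2 hne)).trans hP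
  have h3 : ((m.optionElim i).sum fun _ e => e) = i + m.sum fun _ e => e := by
    rw [Finsupp.sum_fintype _ _ (fun _ => rfl), Fintype.sum_option, Finsupp.sum_fintype _ _ (fun _ => rfl)]
    simp
  omega

lemma aeval_opt {k D : ℕ} {P : MvPolynomial (Option (Fin k)) ℤ} (hP : P.totalDegree ≤ D)
    (x : Option (Fin k) → A) :
    MvPolynomial.aeval x P = ∑ i : Fin (D + 1), x none ^ (i : ℕ) *
      MvPolynomial.aeval (fun i => x (some i)) (cf0 P i) := by
  rw [aeval_opt0, Polynomial.eval₂_eq_sum_range' _ (Nat.lt_succ_of_le (natDegree_opt hP)),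
    Finset.sum_range]
  exact sum_congr rfl fun i _ => mul_comm _ _

/-- **`π` and multiple zeta values at affine patterns** -/
theorem fam_main {l : ℕ} (β : Fin l → ℝ) (hβ : ∀ j, IsAlgebraic ℚ (β j))
    (hli : LinearIndependent ℚ β) (k D : ℕ) (w : Fin k → Wd) (hw : ∀ i, HP (w i) ∧ OK (w i)) :
    ∃ B C : ℝ, 1 < B ∧ 1 < C ∧ ∃ n0 : ℕ, ∀ n : ℕ, n0 ≤ n →
      ∀ P : Fin l → MvPolynomial (Option (Fin k)) ℤ, (∀ j, (P j).totalDegree ≤ D) →
      (∀ j m, |(((P j).coeff m : ℤ) : ℝ)| ≤ C ^ n) →
      |∑ j, β j * MvPolynomial.aeval (fun o : Option (Fin k) => o.elim Real.pi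
        fun i => mz (ar n (w i))) (P j)| ≤ (B ^ n)⁻¹ →
      ∀ j, MvPolynomial.aeval (fun o : Option (Fin k) => o.elim Real.pi
          fun i => mz (ar n (w i))) (P j) = 0 ∧
        ∀ (A : Type) [CommRing A] (x : A) (Z : List ℕ → A),
          (∀ u v, Ad u → Ad v → Z u * Z v = ((sti u v).map Z).sum) →
          MvPolynomial.aeval (fun o : Option (Fin k) => o.elim x
            fun i => ex Z (ar n (w i))) (P j) = 0 := by
  classical
  obtain ⟨B, C, hB, hC, n0, h⟩ := poly_lm _ (LM_alg β hβ hli Pool.Agent.TH456.TM.measT_pi D) k D w hw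
  obtain ⟨L, hL⟩ : ∃ L : ℕ, ∀ m ∈ Om k D, ((lst w m).map List.length).sum ≤ L :=
    ⟨∑ m ∈ Om k D, ((lst w m).map List.length).sum, fun m hm =>
      single_le_sum (f := fun m : Fin k →₀ ℕ => ((lst w m).map List.length).sum)
        (fun _ _ => Nat.zero_le _) hm⟩
  refine ⟨B, C, hB, hC, n0 + L + 2, fun n hn P hPd hPC hsmall => ?_⟩
  have hval : ∑ j, β j * MvPolynomial.aeval (fun o : Option (Fin k) => o.elim Real.pi
        fun i => mz (ar n (w i))) (P j) =
      ∑ p : Fin l × Fin (D + 1), (β p.1 * Real.pi ^ (p.2 : ℕ)) *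
        MvPolynomial.aeval (fun i => mz (ar n (w i))) (cf0 (P p.1) p.2) := by
    rw [Fintype.sum_prod_type]
    refine sum_congr rfl fun j _ => ?_
    rw [aeval_opt (hPd j), mul_sum]
    refine sum_congr rfl fun i _ => ?_
    simp only [Option.elim_none, Option.elim_some]
    ring
  rw [hval] at hsmall
  have h1 := h n (by omega) (fun p => cf0 (P p.1) p.2) (fun p => cf0_degree (hPd p.1) _)
    (fun p m => by
      rw [coeff_cf0]
      exact hPC _ _) hsmall
  have key : ∀ {A : Type} [CommRing A] (F : Wd → A),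
      (∀ m ∈ Om k D, ((lst w m).map F).prod = ((stl (lst w m)).map F).sum) →
      ∀ (x : A) j, MvPolynomial.aeval (fun o : Option (Fin k) => o.elim x fun i => F (w i)) (P j) = 0 := by
    intro A _ F hF x j
    rw [aeval_opt (hPd j)]
    refine sum_eq_zero fun i _ => ?_
    simp only [Option.elim_some]
    rw [aeval_eq w D (cf0 (P j) i) (fun m hm i' => ?_) F hF, sum_eq_zero, mul_zero]
    · intro v hv
      rw [h1 (j, i) v hv, Int.cast_zero, zero_mul]
    · have h2 := (MvPolynomial.le_totalDegree hm).trans (cf0_degree (hPd j) i)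
      by_cases hi : i' ∈ m.support
      · have h3 : m i' ≤ m.sum fun _ e => e :=
          Finset.single_le_sum (f := fun i => m i) (fun _ _ => Nat.zero_le _) hi
        exact h3.trans h2
      · rw [Finsupp.notMem_support_iff.1 hi]
        exact Nat.zero_le _
  have hlst : ∀ m : Fin k →₀ ℕ, ∀ u ∈ lst w m, HP u ∧ OK u := by
    intro m u hu
    obtain ⟨i, rfl⟩ := mem_lst hu
    exact hw i
  intro j
  refine ⟨key (fun v => mz (ar n v)) (fun m hm => mz_prod (lst w m) (hlst m) ?_) Real.pi j, ?_⟩
  · have := hL m hm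
    omega
  · intro A _ x Z hZ
    exact key (fun v => ex Z (ar n v)) (fun m _ => prod_ex hZ (by omega) (lst w m) (hlst m)) x j

end Pool.Agent.X90.MZ
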