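import Pool.Agent.X90.MZ.Words

/-!
# Polynomials in multiple zeta values at affine patterns (after `Pool.Agent.Y777.AM.St`, helper777)
-/

set_option autoImplicit false

namespace Pool.Agent.X90.MZ

open Finset Pool.Agent.TH507.WG
open Pool.Agent.Y760.PZ
open Pool.Agent.TH507.WD (mz)

/-- words -/
abbrev Wd : Type := List (ℕ × ℕ)

variable {A : Type} [CommRing A]

/-- the list of the words of a monomial -/
def lst {k : ℕ} (w : Fin k → Wd) (m : Fin k → ℕ) : List Wd :=
  (List.finRange k).flatMap fun i => List.replicate (m i) (w i)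

lemma mem_lst {k : ℕ} {w : Fin k → Wd} {m : Fin k → ℕ} {u : Wd}
    (h : u ∈ lst w m) : ∃ i, u = w i := by
  rw [lst, List.mem_flatMap] at h
  obtain ⟨i, -, hi⟩ := h
  exact ⟨i, List.eq_of_mem_replicate hi⟩

lemma prod_lst {k : ℕ} (w : Fin k → Wd) (m : Fin k → ℕ) (F : Wd → A) :
    ((lst w m).map F).prod = ∏ i, F (w i) ^ m i := by
  rw [lst, List.map_flatMap]
  have h1 : ∀ L : List (Fin k), (L.flatMap fun i => (List.replicate (m i) (w i)).map F).prod =
      (L.map fun i => F (w i) ^ m i).prod := by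
    intro L
    induction L with
    | nil => simp
    | cons a L ih =>
      rw [List.flatMap_cons, List.prod_append, ih, List.map_cons, List.prod_cons,
        List.map_replicate, List.prod_replicate]
  rw [h1, Fin.prod_univ_def]

/-- all monomials -/
noncomputable def Om (k D : ℕ) : Finset (Fin k →₀ ℕ) :=
  (Finset.univ : Finset (Fin k → Fin (D + 1))).image
    fun g => Finsupp.equivFunOnFinite.symm fun i => (g i : ℕ)

lemma mem_Om {k D : ℕ} {m : Fin k →₀ ℕ} (h : ∀ i, m i ≤ D) : m ∈ Om k D := by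
  rw [Om, mem_image]
  refine ⟨fun i => ⟨m i, by have := h i; omega⟩, mem_univ _, ?_⟩
  ext i
  simp

/-- all words -/
noncomputable def Wo {k : ℕ} (w : Fin k → Wd) (D : ℕ) : Finset Wd :=
  (Om k D).biUnion fun m => (stl (lst w m)).toFinset

/-- the coefficient of a word -/
noncomputable def Cf {k : ℕ} (w : Fin k → Wd) (D : ℕ) (f : MvPolynomial (Fin k) ℤ) (v : Wd) : ℤ :=
  ∑ m ∈ Om k D, f.coeff m * ((stl (lst w m)).countP (· = v) : ℤ)

lemma list_countA (L : List Wd) (F : Wd → A) (s : Finset Wd) (hs : ∀ w ∈ L, w ∈ s) :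
    (L.map F).sum = ∑ w ∈ s, ((L.countP (· = w) : ℕ) : A) * F w := by
  induction L with
  | nil => simp
  | cons a L ih =>
    have hs' : ∀ w ∈ L, w ∈ s := fun w hw => hs w (List.mem_cons_of_mem _ hw)
    rw [List.map_cons, List.sum_cons, ih hs']
    have h1 : ∀ w ∈ s, (((a :: L).countP (· = w) : ℕ) : A) * F w =
        ((L.countP (· = w) : ℕ) : A) * F w + (if a = w then F w else 0) := by
      intro w _
      rw [List.countP_cons]
      by_cases h : a = w
      · simp only [h, decide_true, if_true]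
        push_cast
        ring
      · simp only [h, decide_false, if_false, Bool.false_eq_true]
        push_cast
        ring
    rw [sum_congr rfl h1, sum_add_distrib, sum_ite_eq, if_pos (hs a List.mem_cons_self), add_comm]

lemma aeval_sum {k : ℕ} (D : ℕ) (f : MvPolynomial (Fin k) ℤ)
    (hf : ∀ m ∈ f.support, ∀ i, m i ≤ D) (x : Fin k → A) :
    MvPolynomial.aeval x f = ∑ m ∈ Om k D, ((f.coeff m : ℤ) : A) * ∏ i, x i ^ m i := by
  rw [MvPolynomial.aeval_def, MvPolynomial.eval₂_eq']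
  refine Finset.sum_subset (fun m hm => mem_Om (hf m hm)) fun m _ hm => ?_
  rw [MvPolynomial.notMem_support_iff.1 hm]
  simp

lemma aeval_eq {k : ℕ} (w : Fin k → Wd) (D : ℕ)
    (f : MvPolynomial (Fin k) ℤ) (hf : ∀ m ∈ f.support, ∀ i, m i ≤ D) (F : Wd → A)
    (hF : ∀ m ∈ Om k D, ((lst w m).map F).prod = ((stl (lst w m)).map F).sum) :
    MvPolynomial.aeval (fun i => F (w i)) f = ∑ v ∈ Wo w D, (Cf w D f v : A) * F v := by
  rw [aeval_sum D f hf]
  have h1 : ∀ m ∈ Om k D, ((f.coeff m : ℤ) : A) * ∏ i, F (w i) ^ m i =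
      ∑ v ∈ Wo w D, ((f.coeff m : ℤ) : A) * ((stl (lst w m)).countP (· = v) : A) * F v := by
    intro m hm
    rw [← prod_lst, hF m hm, list_countA (stl (lst w m)) F (Wo w D)
      (fun v hv => mem_biUnion.2 ⟨m, hm, List.mem_toFinset.2 hv⟩), mul_sum]
    refine sum_congr rfl fun v _ => ?_
    rw [mul_assoc]
  rw [sum_congr rfl h1, sum_comm]
  refine sum_congr rfl fun v _ => ?_
  rw [← sum_mul, Cf]
  push_cast
  rfl

lemma Cf_le {k : ℕ} (w : Fin k → Wd) (D : ℕ) : ∃ S : ℝ, 1 ≤ S ∧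
    ∀ (f : MvPolynomial (Fin k) ℤ) (H : ℝ), 0 ≤ H → (∀ m, |((f.coeff m : ℤ) : ℝ)| ≤ H) →
    ∀ v, |(Cf w D f v : ℝ)| ≤ S * H := by
  refine ⟨1 + ∑ m ∈ Om k D, ((stl (lst w m)).length : ℝ),
    le_add_of_nonneg_right (by positivity), fun f H hH hf v => ?_⟩
  rw [Cf]
  push_cast
  have h1 : |∑ m ∈ Om k D, ((f.coeff m : ℤ) : ℝ) * ((stl (lst w m)).countP (· = v) : ℝ)| ≤
      ∑ m ∈ Om k D, H * ((stl (lst w m)).length : ℝ) := by
    refine (abs_sum_le_sum_abs _ _).trans (sum_le_sum fun m _ => ?_)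
    rw [abs_mul]
    refine mul_le_mul (hf m) ?_ (abs_nonneg _) hH
    rw [abs_of_nonneg (Nat.cast_nonneg _)]
    exact_mod_cast List.countP_le_length
  refine h1.trans ?_
  rw [← mul_sum, add_mul, one_mul]
  have : H * ∑ m ∈ Om k D, ((stl (lst w m)).length : ℝ) =
    (∑ m ∈ Om k D, ((stl (lst w m)).length : ℝ)) * H := mul_comm _ _
  linarith

lemma stl_nonneg {k : ℕ} {w : Fin k → Wd} (hw : ∀ i, HP (w i) ∧ OK (w i)) (D : ℕ) :
    ∀ v ∈ Wo w D, HP v ∧ OK v := by
  intro v hv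
  rw [Wo, mem_biUnion] at hv
  obtain ⟨m, _, hm⟩ := hv
  have := stl_ok (lst w m) (fun u hu => by
    obtain ⟨i, rfl⟩ := mem_lst hu
    exact hw i) v (List.mem_toFinset.1 hm)
  exact ⟨this.1, this.2.1⟩

/-- **polynomials with values in the span of `θ`**: small values only for stuffle relations -/
theorem poly_lm {ι : Type} [Fintype ι] (θ : ι → ℝ) (hθ : LM θ) (k D : ℕ) (w : Fin k → Wd)
    (hw : ∀ i, HP (w i) ∧ OK (w i)) :
    ∃ B C : ℝ, 1 < B ∧ 1 < C ∧ ∃ n0 : ℕ, ∀ n : ℕ, n0 ≤ n → ∀ P : ι → MvPolynomial (Fin k) ℤ,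
      (∀ j, (P j).totalDegree ≤ D) → (∀ j m, |(((P j).coeff m : ℤ) : ℝ)| ≤ C ^ n) →
      |∑ j, θ j * MvPolynomial.aeval (fun i => mz (ar n (w i))) (P j)| ≤ (B ^ n)⁻¹ →
      ∀ j, ∀ v ∈ Wo w D, Cf w D (P j) v = 0 := by
  classical
  obtain ⟨B, C, hB, hC, n0, h⟩ := words_lm θ hθ (Wo w D) (fun v hv => (stl_nonneg hw D v hv).1)
    (fun v hv => (stl_nonneg hw D v hv).2)
  obtain ⟨S, hS1, hS⟩ := Cf_le w D
  -- lengths
  obtain ⟨L, hL⟩ : ∃ L : ℕ, ∀ m ∈ Om k D, ((lst w m).map List.length).sum ≤ L :=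
    ⟨∑ m ∈ Om k D, ((lst w m).map List.length).sum, fun m hm =>
      single_le_sum (f := fun m : Fin k →₀ ℕ => ((lst w m).map List.length).sum)
        (fun _ _ => Nat.zero_le _) hm⟩
  obtain ⟨n1, hn1⟩ : ∃ n1 : ℕ, ∀ n, n1 ≤ n → S ≤ (√C) ^ n := by
    have hs : 1 < √C := by
      rw [Real.lt_sqrt (by norm_num), one_pow]
      exact hC
    have := (tendsto_pow_atTop_atTop_of_one_lt hs).eventually (Filter.eventually_ge_atTop S)
    exact Filter.eventually_atTop.1 this
  have hC0 : (0 : ℝ) ≤ C := by linarith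
  refine ⟨B, √C, hB, by
    rw [Real.lt_sqrt (by norm_num), one_pow]
    exact hC, n0 + n1 + L + 1, fun n hn P hPd hPC hsmall => ?_⟩
  have hexp : ∀ j, MvPolynomial.aeval (fun i => mz (ar n (w i))) (P j) =
      ∑ v ∈ Wo w D, (Cf w D (P j) v : ℝ) * mz (ar n v) := by
    intro j
    refine aeval_eq w D (P j) (fun m hm i => ?_) (fun v => mz (ar n v)) (fun m hm => ?_)
    · have h1 := MvPolynomial.le_totalDegree hm
      by_cases hi : i ∈ m.support
      · have h3 : m i ≤ m.sum fun _ e => e :=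
          Finset.single_le_sum (f := fun i => m i) (fun _ _ => Nat.zero_le _) hi
        exact h3.trans (h1.trans (hPd j))
      · rw [Finsupp.notMem_support_iff.1 hi]
        exact Nat.zero_le _
    · refine mz_prod (lst w m) (fun u hu => ?_) ?_
      · obtain ⟨i, rfl⟩ := mem_lst hu
        exact hw i
      · have := hL m hm
        omega
  by_contra hcon
  push Not at hcon
  obtain ⟨j, v, hv, hne⟩ := hcon
  have h1 := h n (by omega) (fun v j => Cf w D (P j) v) ⟨v, hv, fun h0 => hne (congrFun h0 j)⟩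
    (fun v _ j => by
      refine (hS (P j) ((√C) ^ n) (by positivity) (hPC j) v).trans ?_
      calc S * (√C) ^ n ≤ (√C) ^ n * (√C) ^ n :=
            mul_le_mul_of_nonneg_right (hn1 n (by omega)) (by positivity)
        _ = C ^ n := by rw [← mul_pow, Real.mul_self_sqrt hC0])
  have h2 : ∑ j, θ j * MvPolynomial.aeval (fun i => mz (ar n (w i))) (P j) =
      ∑ v ∈ Wo w D, (∑ j, (Cf w D (P j) v : ℝ) * θ j) * mz (ar n v) := by
    rw [sum_congr rfl fun j _ => by rw [hexp j, mul_sum], sum_comm]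
    refine sum_congr rfl fun v _ => ?_
    rw [sum_mul]
    exact sum_congr rfl fun j _ => by ring
  rw [h2] at hsmall
  exact absurd h1 (not_lt.2 hsmall)

end Pool.Agent.X90.MZ
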