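import Pool.Agent.X90.MZ.Core
import Pool.Agent.TH507.WG.G

/-!
# Multiple zeta values at affine patterns: combinations with coefficients in the span of numbers with
a measure of linear independence
-/

set_option autoImplicit false

namespace Pool.Agent.X90.MZ

open Finset Filter Topology Pool.Agent.TH507.ZS Pool.Agent.TH883.Zg Pool.Agent.TH507.WG
open Pool.Agent.Y760.PZ
open Pool.Agent.TH507.WD (mz)

/-- the coefficients of the Dirichlet series of a word -/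
noncomputable def Gw (w : List (ℕ × ℕ)) : ArithmeticFunction ℚ := ⟨cf 1 w, cf_zero w⟩

lemma Gw_apply (w : List (ℕ × ℕ)) (k : ℕ) : Gw w k = cf 1 w k := rfl

lemma Gw_PB (w : List (ℕ × ℕ)) : PB (Gw w) :=
  ⟨2 ^ w.length + w.length, fun k hk => cf_bd w (Nat.le_add_right _ _) (Nat.le_add_left _ _) k hk⟩

lemma dser_nil (n : ℕ) (hn : 2 ≤ n) : dser (cf 1 []) n = 1 := by
  have h1 : ∀ K, cf 1 [] K = if K = 1 then 1 else 0 := fun K => by rw [cf, T_nil]
  rw [dser, tsum_eq_single 0]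
  · simp [h1]
  · intro k hk
    rw [h1, if_neg (by omega)]
    simp

/-- words and `1` -/
theorem words_lm {ι : Type} [Fintype ι] (θ : ι → ℝ) (hθ : LM θ) (Λ : Finset (List (ℕ × ℕ)))
    (hHP : ∀ w ∈ Λ, HP w) (hOK : ∀ w ∈ Λ, OK w) :
    ∃ B C : ℝ, 1 < B ∧ 1 < C ∧ ∃ n0 : ℕ, ∀ n : ℕ, n0 ≤ n → ∀ a : List (ℕ × ℕ) → ι → ℤ,
      (∃ w ∈ Λ, a w ≠ 0) → (∀ w ∈ Λ, ∀ j, |(a w j : ℝ)| ≤ C ^ n) →
      (B ^ n)⁻¹ < |∑ w ∈ Λ, (∑ j, (a w j : ℝ) * θ j) * mz (ar n w)| := by
  classical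
  obtain ⟨B, C, hB, hC, n0, h⟩ := core_lm (J := Λ) θ hθ (fun w => Gw w.1) (fun w => Gw_PB w.1) (by
    intro c hc
    set x : List (ℕ × ℕ) → ℚ := fun w => if hw : w ∈ Λ then c ⟨w, hw⟩ else 0 with hx
    have hx1 : ∀ w : Λ, x w.1 = c w := fun w => by simp only [hx, w.2, dif_pos]
    have hc' : ∀ k, 1 ≤ k → ∑ w ∈ Λ, x w * cf 1 w k = 0 := by
      intro k hk
      rw [← hc k hk, ← sum_coe_sort Λ]
      exact sum_congr rfl fun w _ => by rw [hx1, Gw_apply]
    have h1 := cf1_ind (Λ.erase []) (fun h => (mem_erase.1 h).1 rfl)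
      (fun w hw => hHP w (mem_erase.1 hw).2) (fun w hw => hOK w (mem_erase.1 hw).2) x 1 2 le_rfl (by
        intro K hK _
        have h2 := hc' K (by omega)
        by_cases hnil : [] ∈ Λ
        · rw [← add_sum_erase _ _ hnil] at h2
          have h3 : cf 1 [] K = 0 := by rw [cf, T_nil, if_neg (by omega)]
          rwa [h3, mul_zero, zero_add] at h2
        · rwa [erase_eq_of_notMem hnil])
    funext w
    by_cases hw : w.1 = []
    · have h2 := hc' 1 le_rfl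
      have hnil : [] ∈ Λ := hw ▸ w.2
      rw [← add_sum_erase _ _ hnil, sum_eq_zero (fun v hv => by rw [h1 v hv, zero_mul])] at h2
      have h3 : cf 1 [] 1 = 1 := by rw [cf, T_nil, if_pos rfl]
      rw [h3, mul_one, add_zero] at h2
      rw [← hx1 w, hw, h2]
      rfl
    · have h2 := h1 w.1 (mem_erase.2 ⟨hw, w.2⟩)
      rw [← hx1 w, h2]
      rfl)
  set A : ℕ := ∑ w ∈ Λ, (2 ^ w.length + w.length) with hA
  have hAw : ∀ w ∈ Λ, 2 ^ w.length + w.length ≤ A := fun w hw =>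
    single_le_sum (f := fun w : List (ℕ × ℕ) => 2 ^ w.length + w.length)
      (fun _ _ => Nat.zero_le _) hw
  refine ⟨B, C, hB, hC, n0 + A + 2, fun n hn a ha haC => ?_⟩
  have h1 := h n (by omega) (fun w => a w.1) (by
    obtain ⟨w, hw, hne⟩ := ha
    intro h0
    exact hne (congrFun h0 ⟨w, hw⟩)) (fun w j => haC w.1 w.2 j)
  have h3 : ∀ w : Λ, dser (Gw w.1) n = mz (ar n w.1) := fun w =>
    dser_eq_mz w.1 (hHP w.1 w.2) (A := A) ((Nat.le_add_right _ _).trans (hAw w.1 w.2))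
      ((Nat.le_add_left _ _).trans (hAw w.1 w.2)) (by omega)
  simp only [h3] at h1
  rw [← sum_coe_sort Λ]
  exact h1

end Pool.Agent.X90.MZ
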